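import Mathlib
import Pool.Agent.N205.RT.TB
import Pool.Agent.N205.SG.Count

/-!
# Jannsen's generalized Tate-Beilinson conjecture for products of almost all abelian varieties of every
Newton stratum with all schemes

Let `g i` (`i` in a finite set `I`) be positive integers, `B` any number and `d` a number such that
either `d ≤ 2`, or `d ≤ g i` and `g i` is three or at least five, for all `i` (`DimsU`).  By Honda and
Tate the irreducible polynomials in `weilPolys (p ^ a) g` correspond to the isogeny classes of the
simple abelian varieties over the field with `q = p ^ a` elements whose field `ℚ (π)` has degree
`2 g`; the characteristic polynomial of the Frobenius is a power of the polynomial (the polynomial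
itself if `a = 1` or if the abelian variety is ordinary).

Let `S i` be a **stratum** (`IsStratum p a (g i) t (S i)`), for instance the set of the Weil
polynomials of degree `2 g i` whose Newton polygon is a given one, or lies on or above a given one,
or any set in between, or the set of the Weil polynomials of given `p`-rank. The parameter `t` may be
`a` if the `p`-rank is at least two, and any number `t ≤ a (1 - 2 λ) - 1` where `λ` is the first slope
(normalised so that the supersingular polygon has slope one half), see `StrataFacts`: so every
stratum except for the supersingular one is included as soon as `a (1 - 2 λ) ≥ 2`.

There is a constant `C`, depending only on `g`, `d` and `B`, such that the following holds.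

**(1)** For all families `f i` in `S i` with the exception of a proportion at most
`C (p ^ t) ^ (-1 / 6) log (p ^ t)`, the statement `TBForIndep (p ^ a) f` holds: for all `s > 0`,
`Q = q ^ s`, all abelian varieties `A` over the field `k` with `Q` elements, isogenous to products of
powers of abelian varieties coming from the field with `q` elements whose characteristic polynomials
are powers of the `f i`, and **all separated schemes `U` of finite type** over `k`, of any dimension,
singular or not, proper or not, such that no power `α ^ N`, `N > 0`, of a root `α` of one of the `f i`
is a product of powers (with positive or negative exponents) of `q` and of eigenvalues of the Frobenius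
of `U` on the `ℓ`-adic homology of `U` (`IsIndependentAll`):

* `TB(A × U)` implies `TB(U)`;
* `TB(U)` implies `TB(A × U)`, if the Frobenius endomorphism of `U` satisfies a polynomial with
  independent roots on the motivic homology of `A × U` (`IsIndependent`): for instance if `U` has a
  stratification by smooth schemes `U j`, each of which is the complement of a scheme of this kind in a
  smooth projective variety whose motive is finite-dimensional in the sense of Kimura and O'Sullivan
  (such as all varieties dominated by products of curves);
* so **for all these `U`, the conjecture of Jannsen for `A × U` is equivalent to the one for `U`**.

The result is more precise: `TB` consists of the bijectivity of the regulator in bidegree `(i, j)`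
onto the Frobenius invariants, and of the semisimplicity of the eigenvalue, and everything
holds bidegree by bidegree: the conjecture for `A × U` in one bidegree is equivalent to the conjecture
for `U` in `dim A + 1` bidegrees. In the bidegrees `(2 j, j)` of cycles: the cycle class map of `A × U` in
dimension `i` is bijective onto the invariants, with semisimple eigenvalue, if and only if the ones of
`U` in the dimensions `i - k`, `0 ≤ k ≤ dim A`, are. The conjecture for `A × U` implies the conjecture
for all schemes `X` which are, up to isogeny, direct summands of `A × U`, for instance if there is a
finite flat surjective morphism from `A × U` to `X`, or `X` is a quotient of `A × U` by a finite group (such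
as an isotrivial abelian scheme with fibre `A`).

Here `H^i(U, j)` in the formal statement stands for the homology group `H_(-i)(U, -j)`, and `H^i(A × U, j)`
for `H_(2 dim A - i)(A × U, dim A - j)`; the product with a cycle of codimension `c` on `A` maps the first
one with `i`, `j` to the second one with `i + 2 c`, `j + c`. The Frobenius endomorphism of `U` is the
inverse of the push-forward along the Frobenius morphism, and acts on motivic homology as `Q ^ j`.

No case of the conjecture is assumed. The exceptional families do not depend on `U`, not even on its
dimension.

**(2)** Let `χ₀` be any nonzero rational polynomial of degree at most `B`, for instance the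
characteristic polynomial of Frobenius on the whole homology of a scheme `U₀` with total Betti
number at most `B`. With the exception of a proportion at most `C (p ^ t) ^ (-1 / 6) log (p ^ t)` of the
families, **all** schemes `U` which are tame relative to `χ₀` are independent: this is the case if the
eigenvalues of Frobenius of `U`, up to powers and up to a group of rank less than the `g i`, are
products of rational numbers, of roots of `χ₀` and of Weil numbers of degree less than `2 d` (`d ≥ 3`).

For example (`χ₀ = X - 1`): for almost all families `TB(A × U)` holds for all linear varieties `U`; and
if `d ≥ 3` for all schemes `U` of dimension one, singular, reducible or open, whose components have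
geometric genus less than `d`; or (`χ₀` its characteristic polynomial) for any given scheme `U` of
dimension one.

The idea of the proof: by a sieve (helper521, helper484, and my modules SD, SG) almost all families in
a stratum are such that each pair `α`, `q / α` of roots can be exchanged by a Galois automorphism which
fixes all the other roots of all the `f i`. So a product of roots of the `f i` and of an eigenvalue of
`U` can be a power of `q` only if the roots cancel in pairs. By duality for products `D t` of divisors and
nilpotence (a theorem of Kimura for `A`) the motive of `A` is the sum of Tate twists, given by the
`D t`, and of a motive on which the Frobenius endomorphism of `A` has no eigenvalue which could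
contribute to the generalized Frobenius invariants in the homology of `A × U`, or to the motivic homology
(library `Y156.L` for the invariants; new here: generalized invariants, that is semisimplicity).
-/

set_option autoImplicit false

namespace Pool.Agent.Results.MP_2ce3e7_ag.EveryScheme

open Polynomial Pool.Agent.N205.SG

open Pool.Agent.N205.RT (TBForIndep)

/-- `StrataFacts`: the sets of the Weil polynomials with given Newton polygon, or with Newton
polygon on or above a given one, and the sets of those of given `p`-rank, are strata. -/
theorem result :
    (∀ {I : Type} [Fintype I] (g : I → ℕ) (_ : ∀ i, 0 < g i) (d : ℕ) (_ : DimsU g d) (B : ℕ),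
      ∃ C : ℝ, ∀ p a t : ℕ, p.Prime → 0 < a → 0 < t → ∀ S : I → Set ℤ[X],
        (∀ i, IsStratum p a (g i) t (S i)) →
        (∀ i, (S i).Finite ∧ (4 ^ g i ≤ p ^ t → (S i).Nonempty)) ∧
        ({f : I → ℤ[X] | (∀ i, f i ∈ S i) ∧ ¬ TBForIndep (p ^ a) f}.ncard : ℝ) ≤
          C * (Real.log ((p ^ t : ℕ) : ℝ) * ((p ^ t : ℕ) : ℝ) ^ (-(1 / 6) : ℝ)) *
            ∏ i, ((S i).ncard : ℝ) ∧
        ∀ χ₀ : ℚ[X], χ₀ ≠ 0 → χ₀.natDegree ≤ B →
          ({f : I → ℤ[X] | (∀ i, f i ∈ S i) ∧ ¬ TameIndep g d (p ^ a) χ₀ f}.ncard : ℝ) ≤
            C * (Real.log ((p ^ t : ℕ) : ℝ) * ((p ^ t : ℕ) : ℝ) ^ (-(1 / 6) : ℝ)) *
              ∏ i, ((S i).ncard : ℝ)) ∧
    StrataFacts :=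
  ⟨fun g hg d hd B => indep_unif g hg d hd B (fun q f => TBForIndep q f)
    fun _ hq x hx => Pool.Agent.N205.RT.tb_indep g hg hq.one_lt x hx, strataFacts⟩

end Pool.Agent.Results.MP_2ce3e7_ag.EveryScheme
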