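import Pool.Agent.R937.PZ.Mot

/-!
# Jannsen's conjecture `TB(X)` for the schemes generated by abelian varieties of dimension at most five,
and by products of elliptic curves, abelian surfaces and non-ordinary threefolds

An abelian variety over the field with `p ^ a` elements is modelled by `RedAV` (Honda, Tate): a
finite product of CM types `(E i, Φ i)` with Weil numbers `π i ∈ E i` that satisfy the formula of
Shimura and Taniyama; its cohomology of degree `n`, with coefficients in an algebraically closed field
`Ω`, consists of the alternating `n`-forms on the Tate module `Ω ⊗ H_1`, on which the Frobenius
endomorphism acts by `π`.

We consider (`IsGoodAVP`) the abelian varieties `Y` of the following kinds: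

* **all abelian varieties of dimension at most five**;
* the abelian varieties that are isogenous, over an algebraic closure, to a product of a supersingular
  abelian variety of any dimension and of abelian varieties of dimension at most three (any number, any
  multiplicities), such that any two factors of dimension three whose CM fields have the same Galois
  closure satisfy one of the following: their fields are Galois over `ℚ`; one of them is supersingular;
  they are isogenous; neither of them is ordinary and their `p`-ranks are not `{1, 2}`. So `Y` may be
  **any product of elliptic curves and abelian surfaces**, of any dimension, with any Newton polygons.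

`Homology Ω V` are data of motivic homology `M X n j = H_n^M(X, ℚ(j)) = CH_j(X, n - 2 j) ⊗ ℚ` (higher
Chow groups) and of `ℓ`-adic homology `E X n j = H_n(X, ℚ_ℓ(j))` of schemes `X : V` of finite type over
a finite field, with the Frobenius and the regulator. Let `𝒢` be the smallest class of schemes
(`Generated`, `IsStart`) that

* contains those with the motivic and `ℓ`-adic homology of the abelian varieties above, and all
  schemes for which `TB` holds (so also the known cases can be used: for instance Fermat varieties
  of suitable degrees);
* is closed under direct summands of finite sums of twists of motives, and
* contains all of a closed subscheme `Z` of `X`, `X` and `X ∖ Z` if it contains two of them.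

It contains, for example, all products of curves of genus at most two, symmetric powers of such
products, all varieties whose motive is a direct summand of that of an abelian variety of dimension at
most five, and all open and all singular schemes with a stratification by such schemes.

**Theorem.**

1. For all schemes `X` in `𝒢` - smooth or not, proper or not - `TB(X)` holds: for all `i`, `j` the
   regulator induces an isomorphism of `H_i^M(X, ℚ(j)) ⊗ Ω` with the space of the Frobenius invariant
   elements of `H_i(X, ℚ_ℓ(j)) ⊗ Ω`, and the eigenvalue one of the Frobenius is semisimple.
2. Let `Z` be an **arbitrary** closed subscheme of a scheme `X` in `𝒢`, of dimension at most `d`. Then for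
   the complement `U = X ∖ Z` and all `i ≥ d` the regulator
   `CH_i(U) ⊗ Ω → H_{2i}(U, ℚ_ℓ(i)) ⊗ Ω` is an isomorphism onto the invariants, and the eigenvalue one
   is semisimple.
3. The surjectivity of the regulator `CH_i(X) ⊗ Ω → (H_{2i}(X, ℚ_ℓ(i)) ⊗ Ω)^G` and the semisimplicity
   hold, for all `i`, for all `X` in the class `Spread` of the schemes obtained from those of `𝒢`, and from
   all those for which this is known, by taking open subschemes, images under proper morphisms, unions
   of a closed and an open subscheme, and direct summands of motives.

The starting result `GeneratedByAbelian` is the first part for a smaller class: the first kind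
without the exceptional pairs (two nonisomorphic quartic CM fields with the same Galois closure; CM
fields of degrees two and eight), and the second kind without nonisogenous factors of dimension
two or three whose CM fields have the same Galois closure, unless the fields are Galois. Here for
instance all products of curves of genus two are included.

Properties of the theory of cycles that are used for the abelian varieties `Y` (`IsChowS`,
`IsMotivic`): Poincaré duality, the formal properties of correspondences, the nilpotence of
homologically trivial correspondences (Kimura), the operation of the Frobenius endomorphism on higher
Chow groups, the vanishing of the higher rational `K`-groups of a finite field (Quillen), and the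
algebraicity of the classes in `AlgS` (theorems of Tate, Markman and Ramón Marí). All Tate classes on all
powers of `Y` are in `AlgS` (`Pool.Agent.R937.PG.main`). The passage from the Tate conjecture to all
degrees and to the class `𝒢` is due to Soulé, Geisser, Kahn and Jannsen.
-/

set_option autoImplicit false

namespace Pool.Agent.Results.MP_2ce3e7_ag.NonOrdinaryThreefolds

open Pool.Agent.W495.TA Pool.Agent.W495.FM Pool.Agent.R937.PG

/-- The schemes from which the class `𝒢` is generated: those with the motivic and the `ℓ`-adic homology
of an abelian variety of dimension at most five, or of a product of elliptic curves, abelian surfaces and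
non-ordinary threefolds (`IsGoodAbelianP`), and those for which `TB` holds. -/
def IsStart {Ω V : Type} [Field Ω] [CharZero Ω] (p : ℕ) [Fact p.Prime] (ν : PadicAlgCl p ≃+* ℂ)
    (T : Homology Ω V) (X : V) : Prop :=
  IsGoodAbelianP p ν T X ∨ TB T X

theorem tb_start {p : ℕ} [Fact p.Prime] {ν : PadicAlgCl p ≃+* ℂ} {Ω : Type} [Field Ω]
    [IsAlgClosed Ω] [CharZero Ω] {V : Type} {T : Homology Ω V} (hT : IsHomology T) {X : V}
    (hX : Generated T (IsStart p ν T) X) : TB T X := by
  refine tb_generated hT (fun X hX => ?_) hX
  rcases hX with hX | hX
  · exact tb_goodP hT (Generated.base X hX)
  · exact hX

/-- **Jannsen's conjecture `TB(X)` for all members of the class generated by the abelian varieties of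
dimension at most five and by the products of elliptic curves, abelian surfaces and non-ordinary
threefolds, bijectivity on the complements of arbitrary closed subschemes, and surjectivity for the
spread class.** -/
theorem result (p : ℕ) [Fact p.Prime] (ν : PadicAlgCl p ≃+* ℂ) (Ω : Type) [Field Ω]
    [IsAlgClosed Ω] [CharZero Ω] (V : Type) (T : Homology Ω V) (hT : IsHomology T) :
    (∀ X : V, Generated T (IsStart p ν T) X → TB T X) ∧
    (HasWeights T →
      (∀ (Z X U : V) (d : ℤ), IsTriple T Z X U → Generated T (IsStart p ν T) X → HasDimLE T Z d →
        ∀ i : ℤ, d ≤ i → IsIso T U i) ∧
      ∀ X : V, Spread T (fun X => Generated T (IsStart p ν T) X ∨ ∀ i, IsOnto T X i) X →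
        ∀ i : ℤ, IsOnto T X i) := by
  refine ⟨fun X hX => tb_start hT hX, fun hW => ⟨?_, ?_⟩⟩
  · intro Z X U d h hX hZ i hi
    exact iso_opened hT hW h (onto_of_dim hT hZ hi) ((tb_start hT hX).iso hT i)
  · intro X hX i
    refine onto_spread hT hW (fun X h i => ?_) hX i
    rcases h with h | h
    · exact ((tb_start hT h).iso hT i).1
    · exact h i

end Pool.Agent.Results.MP_2ce3e7_ag.NonOrdinaryThreefolds
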