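import Pool.Agent.N882.UE.Tb
import Pool.Agent.N882.UE.Bil
import Pool.Agent.Q282.UZ.Sys

/-!
# MP_2ce3e7_ag: Jannsen's conjecture TB for all schemes over a finite field and trilinear forms

`T : Homology k Ω` are data of motivic homology `H_i^M(X, ℚ(j))` and of `ℓ`-adic homology
`H_i(X, ℚ_ℓ(j)) ⊗ Ω` of the schemes `X` over the finite field `k`, with the Frobenius and the regulator;
`TB T X` is Jannsen's conjecture for `X` (all degrees and twists, with semisimplicity). `IsTheory T`
lists the known properties of these groups which are used: localisation, homotopy invariance, products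
with `𝔾_m`. `FT True X` means that `X` is separated and of finite type over `k`.

`hypS t` is the affine cubic hypersurface `∑ t_ijl x_i y_j z_l = 1` of a trilinear form, `bilS t` is the
closed subscheme of the affine space given by the bilinear equations `∑ t_ijl x_i y_j = 0`,
`l = 1, …, c`, `tripS k H` is the hypersurface `∑_{(i, j, l) ∈ H} x_i y_j z_l = 1`, and `sysS k E` is given
by the equations `∑_{(i, j) ∈ E_l} x_i y_j = 0`.
-/

set_option autoImplicit false

open CategoryTheory AlgebraicGeometry Pool.Agent.Y116.UV Pool.Agent.N882.UE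

namespace Pool.Agent.Results.MP_2ce3e7_ag.TrilinearHypersurfaces

/-- `TB` is true for all separated schemes of finite type of dimension at most `d`. -/
def AllDim {k Ω : Type} [Field k] [Field Ω] (T : Homology k Ω) (d : ℕ) : Prop :=
  ∀ X : Sch k, FT True X → topologicalKrullDim X.left ≤ d → TB T X

/-- `TB` is true for all smooth separated schemes of finite type of dimension at most `d`. -/
def SmoothDim {k Ω : Type} [Field k] [Field Ω] (T : Homology k Ω) (d : ℕ) : Prop :=
  ∀ X : Sch k, FT True X → Smooth X.hom → topologicalKrullDim X.left ≤ d → TB T X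

/-- `TB` is true for the hypersurfaces `t(x, y, z) = 1` of all trilinear forms `t` over `k` such that one
of the three blocks of variables has at most `m` variables. -/
def Hypersurfaces {k Ω : Type} [Field k] [Field Ω] (T : Homology k Ω) (m : ℕ) : Prop :=
  ∀ (a b c : ℕ) (t : Fin a → Fin b → Fin c → k), (a ≤ m ∨ b ≤ m ∨ c ≤ m) → TB T (hypS t)

/-- `TB` is true for all systems of at most `m` bilinear equations over `k`. -/
def Systems {k Ω : Type} [Field k] [Field Ω] (T : Homology k Ω) (m : ℕ) : Prop :=
  ∀ (a b c : ℕ) (t : Fin a → Fin b → Fin c → k), c ≤ m → TB T (Pool.Agent.Q282.UK.bilS t)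

/-- **Theorem.** Let `T` be motivic and `ℓ`-adic homology of the schemes over the finite field `k`; `TB`
is known in dimension at most one (`curves`).
(1) For all `d` the following are equivalent: `TB` for all separated schemes of finite type of dimension
at most `d`; `TB` for the smooth ones; `TB` for the smooth affine hypersurfaces `t(x, y, z) = 1` of the
trilinear forms with a block of at most `d + 2` variables; `TB` for the systems of at most `d + 2`
bilinear equations.
(2) `TB` is true for all hypersurfaces `t(x, y, z) = 1` with a block of at most three variables (the two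
other blocks, and so the dimension, are arbitrary), and for all systems of at most three bilinear
equations in any number of variables.
(3) If `k` is a prime field, the following are equivalent: `TB` for all separated schemes of finite type;
`TB` for the hypersurfaces `∑_{(i, j, l) ∈ H} x_i y_j z_l = 1` of the finite sets `H` of triples; `TB` for
the systems of bilinear equations with coefficients `1` and at most three terms in every equation.
(4) The hypersurfaces `t(x, y, z) = 1` are smooth. -/
theorem result {k Ω : Type} [Field k] [Finite k] [Field Ω] [CharZero Ω]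
    (T : Homology k Ω) (hT : IsTheory T)
    (curves : ∀ X : Sch k, FT True X → topologicalKrullDim X.left ≤ 1 → TB T X) :
    (∀ d : ℕ, (AllDim T d ↔ SmoothDim T d) ∧ (AllDim T d ↔ Hypersurfaces T (d + 2)) ∧
      (AllDim T d ↔ Systems T (d + 2))) ∧
    (Hypersurfaces T 3 ∧ Systems T 3) ∧
    ((Nat.card k).Prime →
      ((∀ X : Sch k, FT True X → TB T X) ↔
        ∀ (a b c : ℕ) (H : Finset (Fin a × Fin b × Fin c)), TB T (tripS k H)) ∧
      ((∀ X : Sch k, FT True X → TB T X) ↔
        ∀ (a b c : ℕ) (E : Fin c → Finset (Fin a × Fin b)), (∀ l, (E l).card ≤ 3) →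
          TB T (Pool.Agent.Q282.UZ.sysS k E))) ∧
    ∀ (a b c : ℕ) (t : Fin a → Fin b → Fin c → k), Smooth (hypS t).hom := by
  have h1 : TB T (aff k k) := by
    refine curves _ (ft_aff True) ?_
    rw [Pool.Agent.Z125.UN.topDim_aff, ringKrullDim_eq_zero_of_field]
    exact zero_le_one
  have hB := bnd_tb hT h1
  have c1 : AllDim T 1 := fun X hX hd => curves X hX (by exact_mod_cast hd)
  have key : ∀ d : ℕ, (AllDim T d ↔ SmoothDim T d) ∧ (AllDim T d ↔ Hypersurfaces T (d + 2)) ∧
      (AllDim T d ↔ Systems T (d + 2)) := by
    intro d
    refine ⟨?_, Pool.Agent.Q193.LT.dim_iff hB d, dim_bil hB d⟩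
    have h2 : AllDim T d ↔ Hypersurfaces T (d + 2) := Pool.Agent.Q193.LT.dim_iff hB d
    have h3 : SmoothDim T d ↔ Hypersurfaces T (d + 2) := Pool.Agent.Q193.LT.smooth_iff hB d
    rw [h2, h3]
  refine ⟨key, ⟨(key 1).2.1.mp c1, (key 1).2.2.mp c1⟩, fun hp => ⟨⟨?_, ?_⟩, ?_⟩, ?_⟩
  · intro h2 a b c H
    exact h2 _ (ft_aff True)
  · intro h2 X hX
    exact Pool.Agent.Q193.LT.universal_frac (frac_of_prime hp) hB.toUni h2 X hX
  · exact Pool.Agent.Q282.UZ.three_iff (Pool.Agent.Q282.UZ.short_presents (int_surj hp))
      (clo_of_bnd hB)
  · intro a b c t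
    exact Pool.Agent.Z125.UN.smooth_hypS t

end Pool.Agent.Results.MP_2ce3e7_ag.TrilinearHypersurfaces
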